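import Pool.Agent.Helper10.GO.GoalsA

/-!
# Packet GO-NEAR: a common multiple of small degree
-/

set_option autoImplicit false

open MvPolynomial Filter Topology

noncomputable section

namespace Pool.Agent.Helper33.GO

open Pool.Agent.Helper10.GO

theorem convex_step (G : ℕ → ℝ) (h : ∀ k, 0 ≤ G (k + 2) - 2 * G (k + 1) + G k) (n : ℕ) :
    ((n : ℝ) + 1) * (G n - G 0) ≤ n * (G (n + 1) - G 0) := by
  induction n with
  | zero => simp
  | succ n ih =>
    have h1 := h n
    push_cast
    have h2 : ((n : ℝ) + 1) * (2 * G (n + 1) - G n - G 0) ≤ ((n : ℝ) + 1) * (G (n + 2) - G 0) := by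
      apply mul_le_mul_of_nonneg_left _ (by positivity)
      linarith
    have h3 : G (n + 1 + 1) = G (n + 2) := rfl
    rw [h3]
    linarith

theorem convex_le (G : ℕ → ℝ) (h : ∀ k, 0 ≤ G (k + 2) - 2 * G (k + 1) + G k) (k n : ℕ)
    (hkn : k ≤ n) : (n : ℝ) * (G k - G 0) ≤ k * (G n - G 0) := by
  induction n, hkn using Nat.le_induction with
  | base => exact le_rfl
  | succ n hn ih =>
    rcases Nat.eq_zero_or_pos n with h0 | h0
    · subst h0
      have : k = 0 := by omega
      subst this
      simp
    · have h1 := convex_step G h n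
      have hn' : (0 : ℝ) < n := by exact_mod_cast h0
      push_cast
      have h2 : (n : ℝ) * (((n : ℝ) + 1) * (G k - G 0)) ≤ n * (k * (G (n + 1) - G 0)) := by
        have h3 := mul_le_mul_of_nonneg_left ih (by positivity : (0 : ℝ) ≤ (n : ℝ) + 1)
        have h4 := mul_le_mul_of_nonneg_left h1 (by positivity : (0 : ℝ) ≤ (k : ℝ))
        linarith
      exact le_of_mul_le_mul_left h2 hn'

section lin

variable {K L : Type} [Field K] [Field L] [Algebra K L]

theorem finrank_mul (c : L) (hc : c ≠ 0) (U : Submodule K L) :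
    Module.finrank K (U.map (LinearMap.mulLeft K c)) = Module.finrank K U := by
  have hinj : Function.Injective (LinearMap.mulLeft K c) := by
    intro u v huv
    simp only [LinearMap.mulLeft_apply] at huv
    exact mul_left_cancel₀ hc huv
  exact (LinearEquiv.finrank_eq (Submodule.equivMapOfInjective _ hinj U)).symm

/-- Subspaces of small codimension have a common nonzero element. -/
theorem inter {ι : Type} [Fintype ι] (V : Submodule K L) (hV : V.FG) (Vi : ι → Submodule K L)
    (m : ℕ) (hle : ∀ i, Vi i ≤ V) (hm : ∀ i, Module.finrank K (Vi i) = m)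
    (hcard : Fintype.card ι * Module.finrank K V < Fintype.card ι * m + Module.finrank K V) :
    ∃ u : L, u ≠ 0 ∧ ∀ i, u ∈ Vi i := by
  classical
  have hVf : Module.Finite K V := Module.Finite.iff_fg.mpr hV
  have key : ∀ s : Finset ι, s.card * m + Module.finrank K V ≤
      Module.finrank K (V ⊓ s.inf Vi : Submodule K L) + s.card * Module.finrank K V := by
    intro s
    induction s using Finset.induction_on with
    | empty =>
      rw [Finset.inf_empty, inf_top_eq]
      simp
    | insert i s hi ih =>
      rw [Finset.card_insert_of_notMem hi, Finset.inf_insert]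
      have f1 : FiniteDimensional K (Vi i) := Submodule.finiteDimensional_of_le (hle i)
      have f2 : FiniteDimensional K (V ⊓ s.inf Vi : Submodule K L) :=
        Submodule.finiteDimensional_of_le inf_le_left
      have h1 := Submodule.finrank_sup_add_finrank_inf_eq (Vi i) (V ⊓ s.inf Vi)
      have h2 : Module.finrank K (Vi i ⊔ (V ⊓ s.inf Vi) : Submodule K L) ≤
          Module.finrank K V := Submodule.finrank_mono (sup_le (hle i) inf_le_left)
      have h3 : Vi i ⊓ (V ⊓ s.inf Vi) = V ⊓ (Vi i ⊓ s.inf Vi) := by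
        rw [inf_left_comm]
      rw [h3, hm i] at h1
      have h4 : (s.card + 1) * m = s.card * m + m := by ring
      have h5 : (s.card + 1) * Module.finrank K V =
        s.card * Module.finrank K V + Module.finrank K V := by ring
      omega
  have h1 := key Finset.univ
  rw [Finset.card_univ] at h1
  have hpos : 0 < Module.finrank K (V ⊓ Finset.univ.inf Vi : Submodule K L) := by omega
  have hne : (V ⊓ Finset.univ.inf Vi : Submodule K L) ≠ ⊥ := by
    intro h
    rw [h, finrank_bot] at hpos
    exact lt_irrefl _ hpos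
  obtain ⟨u, hu, hu0⟩ := Submodule.exists_mem_ne_zero_of_ne_bot hne
  refine ⟨u, hu0, fun i => ?_⟩
  exact (Finset.inf_le (Finset.mem_univ i) : Finset.univ.inf Vi ≤ Vi i) hu.2

theorem fg_sp {N : ℕ} (x : Fin (N + 1) → L) : (sp K x).FG :=
  Submodule.fg_span (Set.finite_range x)

theorem mem_sp {N : ℕ} (x : Fin (N + 1) → L) (i : Fin (N + 1)) : x i ∈ sp K x :=
  Submodule.subset_span ⟨i, rfl⟩

/-- The product of powers. -/
abbrev UU (X Y W : Submodule K L) (a β e : ℕ) : Submodule K L := X ^ a * Y ^ β * W ^ e

theorem fg_UU {X Y W : Submodule K L} (hX : X.FG) (hY : Y.FG) (hW : W.FG) (a β e : ℕ) :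
    (UU X Y W a β e).FG := ((hX.pow a).mul (hY.pow β)).mul (hW.pow e)

theorem UU_mono {X Y W : Submodule K L} (hX : X.FG) (hY : Y.FG) (hW : W.FG) (a e : ℕ)
    (hY0 : Y ≠ ⊥) : Monotone (fun β => Module.finrank K (UU X Y W a β e)) := by
  apply monotone_nat_of_le_succ
  intro β
  obtain ⟨c, hc, hc0⟩ := Submodule.exists_mem_ne_zero_of_ne_bot hY0
  have hf : Module.Finite K (UU X Y W a (β + 1) e) := Module.Finite.iff_fg.mpr
    (fg_UU hX hY hW a (β + 1) e)
  rw [← finrank_mul c hc0]
  refine Submodule.finrank_mono ?_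
  rw [Submodule.map_le_iff_le_comap]
  intro u hu
  rw [Submodule.mem_comap, LinearMap.mulLeft_apply]
  have h1 : c * u ∈ Y * UU X Y W a β e := Submodule.mul_mem_mul hc hu
  have h2 : Y * UU X Y W a β e = UU X Y W a (β + 1) e := by
    unfold UU
    ring
  rwa [h2] at h1

theorem UU_pos {X Y W : Submodule K L} (hX : X.FG) (hY : Y.FG) (hW : W.FG) (a β e : ℕ)
    (hX0 : X ≠ ⊥) (hY0 : Y ≠ ⊥) (hW0 : W ≠ ⊥) : 0 < Module.finrank K (UU X Y W a β e) := by
  have hf : Module.Finite K (UU X Y W a β e) := Module.Finite.iff_fg.mpr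
    (fg_UU hX hY hW a β e)
  obtain ⟨x, hx, hx0⟩ := Submodule.exists_mem_ne_zero_of_ne_bot hX0
  obtain ⟨y, hy, hy0⟩ := Submodule.exists_mem_ne_zero_of_ne_bot hY0
  obtain ⟨w, hw, hw0⟩ := Submodule.exists_mem_ne_zero_of_ne_bot hW0
  have hmem : x ^ a * y ^ β * w ^ e ∈ UU X Y W a β e :=
    Submodule.mul_mem_mul (Submodule.mul_mem_mul (Submodule.pow_mem_pow _ hx a)
      (Submodule.pow_mem_pow _ hy β)) (Submodule.pow_mem_pow _ hw e)
  rw [Module.finrank_pos_iff_exists_ne_zero]
  refine ⟨⟨_, hmem⟩, ?_⟩
  intro h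
  have := congrArg Subtype.val h
  simp [hx0, hy0, hw0] at this

/-- The main step: nonzero coordinates. -/
theorem near_aux {N : ℕ} (y : Fin (N + 1) → L) (hy : ∀ i, y i ≠ 0) (Y : Submodule K L)
    (hyY : ∀ i, y i ∈ Y) (X W : Submodule K L) (hX : X.FG) (hY : Y.FG) (hW : W.FG) (a B e b : ℕ)
    (h : (N : ℝ) * (Module.finrank K (UU X Y W a (B + N * b) e) -
      Module.finrank K (UU X Y W a B e)) < Module.finrank K (UU X Y W a B e)) :
    ∃ s : L, s ≠ 0 ∧ ∀ i, s * y i ^ b ∈ UU X Y W a B e := by
  classical
  set π : L := ∏ i, y i ^ b with hπ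
  have hπ0 : π ≠ 0 := Finset.prod_ne_zero_iff.mpr fun i _ => pow_ne_zero _ (hy i)
  set c : Fin (N + 1) → L := fun i => ∏ j ∈ Finset.univ.erase i, y j ^ b with hc
  have hcπ : ∀ i, y i ^ b * c i = π := fun i =>
    Finset.mul_prod_erase Finset.univ (fun j => y j ^ b) (Finset.mem_univ i)
  have hc0 : ∀ i, c i ≠ 0 := fun i =>
    Finset.prod_ne_zero_iff.mpr fun j _ => pow_ne_zero _ (hy j)
  have hcm : ∀ i, c i ∈ Y ^ (N * b) := by
    intro i
    have h1 : c i ∈ ∏ j ∈ Finset.univ.erase i, Y ^ b := by
      have h2 : ∀ s : Finset (Fin (N + 1)), ∏ j ∈ s, y j ^ b ∈ ∏ _j ∈ s, Y ^ b := by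
        intro s
        induction s using Finset.induction_on with
        | empty =>
          rw [Finset.prod_empty, Finset.prod_empty]
          exact Submodule.one_le.mp le_rfl
        | insert j s hj ih =>
          rw [Finset.prod_insert hj, Finset.prod_insert hj]
          exact Submodule.mul_mem_mul (Submodule.pow_mem_pow _ (hyY j) b) ih
      exact h2 _
    rw [Finset.prod_const, Finset.card_erase_of_mem (Finset.mem_univ i), Finset.card_univ,
      Fintype.card_fin, Nat.add_sub_cancel, ← pow_mul, mul_comm b N] at h1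
    exact h1
  obtain ⟨u, hu0, hu⟩ := inter (UU X Y W a (B + N * b) e) (fg_UU hX hY hW _ _ _)
    (fun i => (UU X Y W a B e).map (LinearMap.mulLeft K (c i)))
    (Module.finrank K (UU X Y W a B e)) (by
      intro i
      rw [Submodule.map_le_iff_le_comap]
      intro v hv
      rw [Submodule.mem_comap, LinearMap.mulLeft_apply]
      have h1 : c i * v ∈ Y ^ (N * b) * UU X Y W a B e := Submodule.mul_mem_mul (hcm i) hv
      have h2 : Y ^ (N * b) * UU X Y W a B e = UU X Y W a (B + N * b) e := by
        unfold UU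
        ring
      rwa [h2] at h1) (fun i => finrank_mul (c i) (hc0 i) _) (by
      rw [Fintype.card_fin]
      have h1 : ((N : ℝ) + 1) * Module.finrank K (UU X Y W a (B + N * b) e) <
          ((N : ℝ) + 1) * Module.finrank K (UU X Y W a B e) +
            Module.finrank K (UU X Y W a (B + N * b) e) := by linarith
      exact_mod_cast h1)
  refine ⟨u / π, div_ne_zero hu0 hπ0, fun i => ?_⟩
  obtain ⟨v, hv, hvu⟩ := hu i
  rw [LinearMap.mulLeft_apply] at hvu
  have h3 : u / π * y i ^ b = v := by
    rw [← hvu, ← hcπ i]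
    have := hc0 i
    have := pow_ne_zero b (hy i)
    field_simp
  rw [h3]
  exact hv

end lin

theorem near : S_NEAR := by
  intro K L _ _ _ N x y w B hx hy hw hconv a B' b e Kc ha hb he hB' hev T
  classical
  have hX0 : sp K x ≠ ⊥ := by
    intro h
    apply hx
    funext i
    have := mem_sp (K := K) x i
    rw [h, Submodule.mem_bot] at this
    exact this
  have hY0 : sp K y ≠ ⊥ := by
    intro h
    apply hy
    funext i
    have := mem_sp (K := K) y i
    rw [h, Submodule.mem_bot] at this
    exact this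
  have hW0 : sp K w ≠ ⊥ := by
    intro h
    apply hw
    funext i
    have := mem_sp (K := K) w i
    rw [h, Submodule.mem_bot] at this
    exact this
  obtain ⟨T₀, hT₀⟩ := eventually_atTop.mp hev
  have hgap : 0 < (B' : ℝ) - (N : ℝ) ^ 2 * b * Kc := by linarith
  obtain ⟨T₁, hT₁⟩ := exists_nat_gt ((B : ℝ) / ((B' : ℝ) - (N : ℝ) ^ 2 * b * Kc))
  set t := T + T₀ + T₁ + B + 1 with ht
  refine ⟨t, by omega, ?_⟩
  have hmain := hT₀ t (by omega)
  have hbig : (N : ℝ) ^ 2 * b * Kc * t + B < B' * t := by
    have h1 : (T₁ : ℝ) ≤ t := by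
      have : T₁ ≤ t := by omega
      exact_mod_cast this
    have h2 := (div_lt_iff₀ hgap).mp (hT₁.trans_le h1)
    linarith
  have hat : B ≤ a * t := by nlinarith
  have het : B ≤ e * t := by nlinarith
  set g : ℕ → ℝ := fun β =>
    (Module.finrank K (UU (sp K x) (sp K y) (sp K w) (a * t) β (e * t)) : ℝ) with hg
  have hgm : Monotone g := by
    intro β β' hβ
    have := UU_mono (fg_sp (K := K) x) (fg_sp (K := K) y) (fg_sp (K := K) w) (a * t) (e * t)
      hY0 hβ
    simp only [hg]
    exact_mod_cast this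
  have hgp : ∀ β, 0 < g β := by
    intro β
    have := UU_pos (fg_sp (K := K) x) (fg_sp (K := K) y) (fg_sp (K := K) w) (a * t) β (e * t)
      hX0 hY0 hW0
    simp only [hg]
    exact_mod_cast this
  have hg0 : g (B' * t) ≤ Kc * g 0 := by
    have h1 : UU (sp K x) (sp K y) (sp K w) (a * t) 0 (e * t) =
      sp K x ^ (a * t) * sp K w ^ (e * t) := by
      unfold UU
      rw [pow_zero, mul_one]
    simp only [hg]
    rw [h1]
    exact hmain
  have hKc : 1 ≤ Kc := by
    have h1 := hgm (Nat.zero_le (B' * t))
    have h2 := hgp 0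
    by_contra hcon
    push Not at hcon
    nlinarith
  have hgc : ∀ k, 0 ≤ g (B + (k + 2)) - 2 * g (B + (k + 1)) + g (B + k) := by
    intro k
    have h1 := hconv ![a * t, B + k, e * t] (by
      intro i
      fin_cases i
      · exact hat
      · simp
      · exact het)
    have hhf : ∀ β : Fin 3 → ℕ, hf K ![x, y, w] β =
        (Module.finrank K (UU (sp K x) (sp K y) (sp K w) (β 0) (β 1) (β 2)) : ℤ) := by
      intro β
      unfold hf UU
      rw [Fin.prod_univ_three]
      rfl
    have hfds : fds [1, 1] (hf K ![x, y, w]) ![a * t, B + k, e * t] =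
        (hf K ![x, y, w] (![a * t, B + k, e * t] + Pi.single 1 1 + Pi.single 1 1) -
          hf K ![x, y, w] (![a * t, B + k, e * t] + Pi.single 1 1)) -
        (hf K ![x, y, w] (![a * t, B + k, e * t] + Pi.single 1 1) -
          hf K ![x, y, w] ![a * t, B + k, e * t]) := rfl
    rw [hfds, hhf, hhf, hhf] at h1
    simp only [Pi.add_apply] at h1
    have h2 : (0 : ℝ) ≤ (g (B + k + 1 + 1) - g (B + k + 1)) - (g (B + k + 1) - g (B + k)) := by
      simp only [hg]
      exact_mod_cast h1
    have h3 : B + k + 1 + 1 = B + (k + 2) := by ring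
    have h4 : B + k + 1 = B + (k + 1) := by ring
    rw [h3, h4] at h2
    linarith
  have hkey : (N : ℝ) * (g (B + N * (b * t)) - g B) < g B := by
    rcases Nat.eq_zero_or_pos N with hN | hN
    · subst hN
      have := hgp B
      simp
      exact this
    · have hN1 : (1 : ℝ) ≤ N := by exact_mod_cast hN
      have hb1 : (1 : ℝ) ≤ b := by exact_mod_cast hb
      have ht0 : (0 : ℝ) < t := by
        have : 0 < t := by omega
        exact_mod_cast this
      have hNb : (N : ℝ) * (b * t) ≤ (N : ℝ) ^ 2 * b * Kc * t := by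
        have h1 : (N : ℝ) * b * t * 1 ≤ (N : ℝ) * b * t * (N * Kc) := by
          apply mul_le_mul_of_nonneg_left _ (by positivity)
          nlinarith
        linarith
      have hle : B + N * (b * t) ≤ B' * t := by
        have : (B : ℝ) + N * (b * t) < B' * t := by linarith
        exact_mod_cast this.le
      obtain ⟨n, hn⟩ := Nat.exists_eq_add_of_le hle
      have h1 := convex_le (fun k => g (B + k)) (by
        intro k
        exact hgc k) (N * (b * t)) (N * (b * t) + n) (by omega)
      simp only [add_zero] at h1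
      have h2 : B + (N * (b * t) + n) = B' * t := by omega
      rw [h2] at h1
      have h3 : ((N * (b * t) + n : ℕ) : ℝ) = B' * t - B := by
        have : ((B + (N * (b * t) + n) : ℕ) : ℝ) = ((B' * t : ℕ) : ℝ) := by rw [h2]
        push_cast at this ⊢
        linarith
      rw [h3] at h1
      have h4 : g (B' * t) - g B ≤ Kc * g B := by
        have h5 := hgm (Nat.zero_le B)
        have h6 := hgp B
        have h7 : Kc * g 0 ≤ Kc * g B := mul_le_mul_of_nonneg_left h5 (by linarith)
        linarith
      have h5 : ((B' : ℝ) * t - B) * (N * (g (B + N * (b * t)) - g B)) <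
          ((B' : ℝ) * t - B) * g B := by
        have h6 : ((N * (b * t) : ℕ) : ℝ) * (g (B' * t) - g B) ≤
            ((N * (b * t) : ℕ) : ℝ) * (Kc * g B) :=
          mul_le_mul_of_nonneg_left h4 (by positivity)
        have h7 : (N : ℝ) * (((B' : ℝ) * t - B) * (g (B + N * (b * t)) - g B)) ≤
            N * (((N * (b * t) : ℕ) : ℝ) * (Kc * g B)) :=
          mul_le_mul_of_nonneg_left (h1.trans h6) (by positivity)
        have h8 : (N : ℝ) * (((N * (b * t) : ℕ) : ℝ) * (Kc * g B)) =
            ((N : ℝ) ^ 2 * b * Kc * t) * g B := by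
          push_cast
          ring
        have h9 : ((N : ℝ) ^ 2 * b * Kc * t) * g B < (B' * t - B) * g B :=
          mul_lt_mul_of_pos_right (by linarith) (hgp B)
        linarith
      have h10 : (0 : ℝ) < B' * t - B := by
        have : 0 ≤ (N : ℝ) ^ 2 * b * Kc * t := by positivity
        linarith
      exact lt_of_mul_lt_mul_left h5 h10.le
  obtain ⟨i₀, hi₀⟩ : ∃ i, y i ≠ 0 := by
    by_contra hcon
    push Not at hcon
    exact hy (funext hcon)
  obtain ⟨s, hs0, hs⟩ := near_aux (K := K) (fun i => if y i = 0 then y i₀ else y i) (by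
      intro i
      by_cases hi : y i = 0
      · simp only [hi, if_true]
        exact hi₀
      · simp only [hi, if_false]
        exact hi) (sp K y) (by
      intro i
      by_cases hi : y i = 0
      · simp only [hi, if_true]
        exact mem_sp y i₀
      · simp only [hi, if_false]
        exact mem_sp y i) (sp K x) (sp K w) (fg_sp x) (fg_sp y) (fg_sp w) (a * t) B (e * t)
      (b * t) hkey
  refine ⟨s, hs0, fun i => ?_⟩
  by_cases hi : y i = 0
  · rw [hi, zero_pow (by
      have : 0 < b * t := Nat.mul_pos hb (by omega)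
      omega), mul_zero]
    exact Submodule.zero_mem _
  · have := hs i
    simp only [hi, if_false] at this
    exact this

end Pool.Agent.Helper33.GO
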