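import Pool.Agent.Helper10.GO.GoalsP

/-!
# Packet GO-LIN: the orbit in residue balls
-/

set_option autoImplicit false

open MvPolynomial Filter Topology

noncomputable section

namespace Pool.Agent.Helper33.GO

open Pool.Agent.Helper10.GO

theorem pit_map {R S : Type} [CommRing R] [CommRing S] (φ : R →+* S) {N : ℕ}
    (f : Fin N → MvPolynomial (Fin N) R) (n : ℕ) (i : Fin N) :
    map φ (pit f n i) = pit (fun i => map φ (f i)) n i := by
  induction n generalizing i with
  | zero => exact map_X φ i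
  | succ n ih =>
    show map φ (aeval (pit f n) (f i)) = aeval (pit (fun i => map φ (f i)) n) (map φ (f i))
    rw [← bind₁, map_bind₁]
    congr 1
    congr 1
    funext j
    exact ih j

/-- Eventually periodic orbits in a finite set. -/
theorem ev_per {α : Type} [Finite α] (F : α → α) (a : ℕ → α) (h : ∀ n, a (n + 1) = F (a n)) :
    ∃ n₀ a₀ : ℕ, 1 ≤ a₀ ∧ ∀ n, a (n₀ + n + a₀) = a (n₀ + n) := by
  obtain ⟨x, y, hxy, he⟩ := Finite.exists_ne_map_eq_of_infinite a
  wlog hlt : x < y generalizing x y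
  · exact this y x hxy.symm he.symm (by omega)
  refine ⟨x, y - x, by omega, ?_⟩
  intro n
  induction n with
  | zero =>
    rw [add_zero, show x + (y - x) = y by omega]
    exact he.symm
  | succ n ih =>
    have e1 : x + (n + 1) + (y - x) = x + n + (y - x) + 1 := by omega
    have e2 : x + (n + 1) = x + n + 1 := by omega
    rw [e1, e2, h, h, ih]

theorem eval_aeval' {R : Type} [CommRing R] {N : ℕ} (z : Fin N → R)
    (φ : Fin N → MvPolynomial (Fin N) R) (G : MvPolynomial (Fin N) R) :
    eval z (aeval φ G) = eval (fun j => eval z (φ j)) G := by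
  induction G using MvPolynomial.induction_on with
  | C a => simp
  | add p q hp hq => rw [map_add, map_add, map_add, hp, hq]
  | mul_X p i hp => rw [map_mul, map_mul, map_mul, hp, aeval_X, eval_X]

variable {p : ℕ} [Fact p.Prime]

theorem dvd_of_toZMod {x : ℤ_[p]} (h : PadicInt.toZMod x = 0) : (p : ℤ_[p]) ∣ x := by
  have h1 : x ∈ RingHom.ker (PadicInt.toZMod : ℤ_[p] →+* ZMod p) := h
  rw [PadicInt.ker_toZMod, PadicInt.maximalIdeal_eq_span_p, Ideal.mem_span_singleton] at h1
  exact h1

theorem lin (hCHN : S_CHN) (hTAY : S_TAY) (hAFP : S_AFP) : S_LIN := by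
  intro p _ N f a hJ ha
  have hchn := hCHN ℤ_[p] N f
  -- eventual periodicity
  obtain ⟨n₀, a₀, ha₀, hper⟩ := ev_per (α := Fin N → ZMod p)
    (fun x i => eval x (MvPolynomial.map PadicInt.toZMod (f i)))
    (fun n i => PadicInt.toZMod (a n i)) (by
      intro n
      funext i
      rw [ha n i, eval_map]
      show PadicInt.toZMod (eval₂ (RingHom.id _) (a n) (f i)) = _
      rw [eval₂_comp_left, RingHom.comp_id]
      rfl)
  set m := Nat.card (Equiv.Perm (Fin N → ZMod p)) with hm
  have hm1 : 1 ≤ m := Nat.card_pos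
  refine ⟨n₀, a₀ * m, Nat.mul_pos ha₀ hm1, ?_⟩
  intro r
  set b := a (n₀ + r) with hb
  set g := pit f a₀ with hg
  have hgb : ∀ i, eval b (g i) = a (n₀ + r + a₀) i := fun i =>
    (hchn.2.2 a ha (n₀ + r) a₀ i).symm
  have hv : ∀ i, ∃ v, eval b (g i) = b i + p * v := by
    intro i
    have h1 : (p : ℤ_[p]) ∣ eval b (g i) - b i := by
      apply dvd_of_toZMod
      rw [map_sub, hgb]
      have h2 : (PadicInt.toZMod (a (n₀ + r + a₀) i) : ZMod p) =
          PadicInt.toZMod (a (n₀ + r) i) := congrFun (hper r) i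
      rw [h2, sub_self]
    obtain ⟨v, hv⟩ := h1
    exact ⟨v, by rw [← hv]; ring⟩
  choose v hv using hv
  have htay := fun i => hTAY ℤ_[p] N (g i) (p : ℤ_[p]) b
  choose Q hQ using htay
  set h : Fin N → MvPolynomial (Fin N) ℤ_[p] := fun i =>
    C (v i) + ∑ j, C (eval b (pderiv j (g i))) * X j + C (p : ℤ_[p]) * Q i with hh
  have hsub : ∀ i, aeval (fun j => (C (b j) + C (p : ℤ_[p]) * X j : MvPolynomial (Fin N) ℤ_[p]))
      (g i) = C (b i) + C (p : ℤ_[p]) * h i := by
    intro i
    rw [hQ i, hv i]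
    simp only [hh, map_add, map_mul, map_pow]
    ring
  have hred : ∀ i, MvPolynomial.map (PadicInt.toZMod : ℤ_[p] →+* ZMod p) (h i) =
      C (PadicInt.toZMod (v i)) + ∑ j, C ((Matrix.of fun i j =>
        PadicInt.toZMod (eval b (pderiv j (g i)))) i j) * X j := by
    intro i
    simp only [hh, map_add, map_mul, map_sum, map_C, map_X, Matrix.of_apply]
    rw [map_natCast, CharP.cast_eq_zero]
    simp
  have hdet : (Matrix.of fun i j => (PadicInt.toZMod (eval b (pderiv j (g i))) : ZMod p)).det ≠ 0 := by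
    have h1 := (hchn.2.1 hJ a₀).2 b
    have h2 := h1.map (PadicInt.toZMod : ℤ_[p] →+* ZMod p)
    rw [RingHom.map_det] at h2
    exact h2.ne_zero
  have hafp := (hAFP (ZMod p) N (Matrix.of fun i j => PadicInt.toZMod (eval b (pderiv j (g i))))
    (fun i => PadicInt.toZMod (v i)) hdet).2
  obtain ⟨z, hz0, hz⟩ : ∃ z : ℕ → Fin N → ℤ_[p], z 0 = 0 ∧
      ∀ n, z (n + 1) = fun i => eval (z n) (h i) :=
    ⟨fun n => Nat.rec 0 (fun _ z => fun i => eval z (h i)) n, rfl, fun n => rfl⟩
  have hza : ∀ n i, a (n₀ + r + a₀ * n) i = b i + p * z n i := by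
    intro n
    induction n with
    | zero =>
      intro i
      rw [mul_zero, add_zero, hz0]
      simp [hb]
    | succ n ih =>
      intro i
      have e1 : n₀ + r + a₀ * (n + 1) = n₀ + r + a₀ * n + a₀ := by ring
      rw [e1, hchn.2.2 a ha]
      have e2 : a (n₀ + r + a₀ * n) = fun j => b j + p * z n j := funext ih
      rw [e2, hz n]
      have e3 : eval (fun j => b j + (p : ℤ_[p]) * z n j) (g i) =
          eval (z n) (aeval (fun j => (C (b j) + C (p : ℤ_[p]) * X j :
            MvPolynomial (Fin N) ℤ_[p])) (g i)) := by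
        rw [eval_aeval']
        simp
      rw [← hg, e3, hsub]
      simp
  refine ⟨b, pit h m, fun n => z (m * n), ?_, ?_, ?_⟩
  · intro i
    have h1 : MvPolynomial.map (PadicInt.toZMod : ℤ_[p] →+* ZMod p) (pit h m i - X i) = 0 := by
      rw [map_sub, pit_map, map_X]
      have : (fun i => MvPolynomial.map (PadicInt.toZMod : ℤ_[p] →+* ZMod p) (h i)) = _ := funext hred
      rw [this, hafp i, sub_self]
    have h2 : C (p : ℤ_[p]) ∣ pit h m i - X i := by
      rw [C_dvd_iff_dvd_coeff]
      intro s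
      apply dvd_of_toZMod
      rw [← coeff_map, h1, coeff_zero]
    obtain ⟨Q', hQ'⟩ := h2
    exact ⟨Q', by rw [← hQ']; ring⟩
  · intro n i
    have h1 := (hCHN ℤ_[p] N h).2.2 z (fun n i => congrFun (hz n) i) (m * n) m i
    show z (m * (n + 1)) i = eval (z (m * n)) (pit h m i)
    rw [show m * (n + 1) = m * n + m by ring]
    exact h1
  · intro n i
    rw [mul_assoc]
    exact hza (m * n) i

end Pool.Agent.Helper33.GO
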